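import Pool.Agent.Helper5.FS.Stmts

set_option autoImplicit false

open Finset

namespace Pool.Agent.Helper5.FS

theorem st_PSI (h1 : ST_PS1) (h2 : ST_PS2) : ST_PSI := by
  intro n T E Q hT hP hI hC
  have g1 := h1 n T E Q hP hI hC
  have g2 := h2 n T Q hP
  set k := (Q.filter (fun B => 2 * B.card ≤ T)).card with hk
  set l := (Q.filter (fun B => ¬ 2 * B.card ≤ T)).card with hl
  set F := (E.filter (fun e => e.card ≤ T)).card with hF
  have hkl : k + l = Q.card := by
    rw [hk, hl]
    exact Finset.card_filter_add_card_filter_not (s := Q) (fun B => 2 * B.card ≤ T)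
  have hT0 : (0 : ℝ) < T := by exact_mod_cast hT
  have a1 : (k : ℝ) ≤ 1 + Real.sqrt (2 * F) := by
    rcases Nat.eq_zero_or_pos k with h0 | h0
    · rw [h0, Nat.cast_zero]
      have := Real.sqrt_nonneg (2 * (F : ℝ))
      linarith
    · obtain ⟨j, hj⟩ : ∃ j, k = j + 1 := ⟨k - 1, by omega⟩
      rw [hj] at g1
      have g3 : (j + 1) * j ≤ 2 * F := by simpa using g1
      have g4 : ((j : ℝ) + 1) * j ≤ 2 * F := by exact_mod_cast g3
      have g5 : (j : ℝ) ≤ Real.sqrt (2 * F) := by
        apply Real.le_sqrt_of_sq_le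
        have : (0 : ℝ) ≤ j := Nat.cast_nonneg _
        nlinarith
      rw [hj]
      push_cast
      linarith
  have a2 : (l : ℝ) ≤ 2 * n / T := by
    rw [le_div_iff₀ hT0]
    exact_mod_cast g2
  have a3 : (Q.card : ℝ) = k + l := by
    rw [← hkl]
    push_cast
    ring
  rw [a3]
  linarith

end Pool.Agent.Helper5.FS
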